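import Pool.Agent.Y600.DC.Stm

/-!
# DS/MWU: the multiplicative weights algorithm
-/

set_option autoImplicit false

namespace Pool.Agent.P8H71.DS.MWU

open Pool.Agent.Y600.DC

variable {n : ℕ} (G : SimpleGraph (Fin n)) (pick : ℕ → Fin n)

/-- the weight of the vertex `v` before round `t` -/
noncomputable def wt (t : ℕ) (v : Fin n) : ℕ :=
  (2 * n + 1) ^ cnt G pick t v * (2 * n + 2) ^ (t - cnt G pick t v)

theorem cnt_le (t : ℕ) (v : Fin n) : cnt G pick t v ≤ t := by
  classical
  unfold cnt
  exact (Finset.card_filter_le _ _).trans (by simp)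

theorem cnt_zero (v : Fin n) : cnt G pick 0 v = 0 := by
  have := cnt_le G pick 0 v
  omega

theorem cnt_succ_pos (t : ℕ) (v : Fin n) (h : Close G v (pick t)) :
    cnt G pick (t + 1) v = cnt G pick t v + 1 := by
  classical
  unfold cnt
  rw [Finset.range_add_one, Finset.filter_insert, if_pos h, Finset.card_insert_of_notMem (by simp)]

theorem cnt_succ_neg (t : ℕ) (v : Fin n) (h : ¬ Close G v (pick t)) :
    cnt G pick (t + 1) v = cnt G pick t v := by
  classical
  unfold cnt
  rw [Finset.range_add_one, Finset.filter_insert, if_neg h]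

theorem wt_zero (v : Fin n) : wt G pick 0 v = 1 := by
  simp [wt, cnt_zero]

theorem wt_succ_pos (t : ℕ) (v : Fin n) (h : Close G v (pick t)) :
    wt G pick (t + 1) v = (2 * n + 1) * wt G pick t v := by
  unfold wt
  rw [cnt_succ_pos G pick t v h, Nat.add_sub_add_right, pow_succ]
  ring

theorem wt_succ_neg (t : ℕ) (v : Fin n) (h : ¬ Close G v (pick t)) :
    wt G pick (t + 1) v = (2 * n + 2) * wt G pick t v := by
  unfold wt
  have h1 := cnt_le G pick t v
  rw [cnt_succ_neg G pick t v h, Nat.succ_sub h1, pow_succ]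
  ring

/-- the potential -/
noncomputable def pot (t : ℕ) : ℕ := ∑ v, wt G pick t v

theorem pot_zero : pot G pick 0 = n := by
  simp [pot, wt_zero]

open Classical in
theorem load_eq (t : ℕ) (u : Fin n) :
    load G pick t u = ∑ v ∈ Finset.univ.filter (fun v => Close G v u), wt G pick t v := rfl

theorem pot_succ (t : ℕ) :
    pot G pick (t + 1) + load G pick t (pick t) = (2 * n + 2) * pot G pick t := by
  classical
  unfold pot
  rw [load_eq, Finset.sum_filter, ← Finset.sum_add_distrib, Finset.mul_sum]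
  refine Finset.sum_congr rfl fun v _ => ?_
  by_cases h : Close G v (pick t)
  · rw [if_pos h, wt_succ_pos G pick t v h]
    ring
  · rw [if_neg h, wt_succ_neg G pick t v h]
    ring

theorem pot_le (t : ℕ) (D : Finset (Fin n)) (hD : Dominating G D) :
    pot G pick t ≤ ∑ u ∈ D, load G pick t u := by
  classical
  have h1 : ∀ v : Fin n, ∃ u ∈ D, Close G v u := by
    intro v
    by_cases hv : v ∈ D
    · exact ⟨v, hv, Or.inl rfl⟩
    · obtain ⟨w, hw, hvw⟩ := hD v hv
      exact ⟨w, hw, Or.inr hvw⟩
  simp only [load_eq, Finset.sum_filter]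
  rw [Finset.sum_comm]
  unfold pot
  refine Finset.sum_le_sum fun v _ => ?_
  obtain ⟨u, hu, hvu⟩ := h1 v
  calc wt G pick t v = if Close G v u then wt G pick t v else 0 := by rw [if_pos hvu]
    _ ≤ _ := Finset.single_le_sum (f := fun u => if Close G v u then wt G pick t v else 0)
      (fun _ _ => Nat.zero_le _) hu

theorem pot_step (t : ℕ) (D : Finset (Fin n)) (hD : Dominating G D)
    (hg : ∀ u, load G pick t u ≤ load G pick t (pick t)) :
    D.card * pot G pick (t + 1) + pot G pick t ≤ (2 * n + 2) * D.card * pot G pick t := by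
  have h1 := pot_le G pick t D hD
  have h2 : ∑ u ∈ D, load G pick t u ≤ D.card * load G pick t (pick t) := by
    rw [← smul_eq_mul]
    exact Finset.sum_le_card_nsmul _ _ _ fun u _ => hg u
  have h3 := pot_succ G pick t
  calc D.card * pot G pick (t + 1) + pot G pick t
      ≤ D.card * pot G pick (t + 1) + D.card * load G pick t (pick t) := by omega
    _ = D.card * (pot G pick (t + 1) + load G pick t (pick t)) := by ring
    _ = (2 * n + 2) * D.card * pot G pick t := by rw [h3]; ring

theorem pot_bound (T : ℕ) (hg : Greedy G pick T) (D : Finset (Fin n)) (hD : Dominating G D) :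
    ∀ t ≤ T, (D.card : ℝ) ^ t * (pot G pick t : ℝ) ≤ ((2 * n + 2) * D.card - 1) ^ t * n := by
  intro t
  induction t with
  | zero => intro _; simp [pot_zero]
  | succ t ih =>
    intro ht
    have h1 := ih (by omega)
    have h2 := pot_step G pick t D hD (hg t (by omega))
    have h3 : (D.card : ℝ) * pot G pick (t + 1) + pot G pick t ≤
        (2 * n + 2) * D.card * pot G pick t := by exact_mod_cast h2
    by_cases hd : D.card = 0
    · have h4 : pot G pick t = 0 := by
        rw [hd] at h2; omega
      have h5 := pot_le G pick (t + 1) D hD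
      rw [Finset.card_eq_zero] at hd
      subst hd
      have h6 : pot G pick (t + 1) = 0 := by simpa using h5
      have h7 : n = 0 := by
        by_contra hn
        obtain ⟨w, hw, _⟩ := hD ⟨0, by omega⟩ (by simp)
        simp at hw
      rw [h6, h7]
      simp
    · have h4 : (1 : ℝ) ≤ D.card := by exact_mod_cast Nat.one_le_iff_ne_zero.mpr hd
      have h5 : (0 : ℝ) ≤ (2 * n + 2) * D.card - 1 := by nlinarith [(Nat.cast_nonneg n : (0 : ℝ) ≤ n)]
      have h6 : (0 : ℝ) ≤ (D.card : ℝ) ^ t := by positivity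
      calc (D.card : ℝ) ^ (t + 1) * (pot G pick (t + 1) : ℝ)
          = (D.card : ℝ) ^ t * (D.card * pot G pick (t + 1)) := by ring
        _ ≤ (D.card : ℝ) ^ t * (((2 * n + 2) * D.card - 1) * pot G pick t) := by
            apply mul_le_mul_of_nonneg_left _ h6
            linarith
        _ = ((2 * n + 2) * D.card - 1) * ((D.card : ℝ) ^ t * pot G pick t) := by ring
        _ ≤ ((2 * n + 2) * D.card - 1) * (((2 * n + 2) * D.card - 1) ^ t * n) :=
            mul_le_mul_of_nonneg_left h1 h5
        _ = _ := by ring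

/-- the final inequality of real numbers -/
theorem final_ineq (N d T c : ℝ) (hN1 : 1 ≤ N) (hd1' : 1 ≤ d) (hdN : d ≤ N)
    (hTr : T = 8 * (N + 1) ^ 4) (hcr : (d + 1) * c ≤ T)
    (h9 : T * (1 / ((2 * N + 2) * d)) ≤ (N - 1) + c * (1 / (2 * N + 1))) : False := by
  have hN0 : 0 < N := by linarith
  have hd0 : 0 < d := by linarith
  have hT0 : 0 ≤ T := by rw [hTr]; positivity
  have h10 : c ≤ T / (d + 1) := by
    rw [le_div_iff₀ (by positivity)]
    linarith
  have h11 : c * (1 / (2 * N + 1)) ≤ T / (d + 1) * (1 / (2 * N + 1)) :=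
    mul_le_mul_of_nonneg_right h10 (by positivity)
  have h12 : T * ((2 * N + 1 - d) / (d * (d + 1) * (2 * N + 1) * (2 * N + 2))) ≤ N - 1 := by
    have : T * ((2 * N + 1 - d) / (d * (d + 1) * (2 * N + 1) * (2 * N + 2))) =
        T * (1 / ((2 * N + 2) * d)) - T / (d + 1) * (1 / (2 * N + 1)) := by
      field_simp
      ring
    rw [this]
    linarith
  have h13 : (N + 1) / (N * (N + 1) * (2 * N + 1) * (2 * N + 2)) ≤
      (2 * N + 1 - d) / (d * (d + 1) * (2 * N + 1) * (2 * N + 2)) := by
    apply div_le_div₀ (by linarith) (by linarith) (by positivity)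
    have : d * (d + 1) ≤ N * (N + 1) := by nlinarith
    have h0 : 0 ≤ (2 * N + 1) * (2 * N + 2) := by positivity
    calc d * (d + 1) * (2 * N + 1) * (2 * N + 2) = d * (d + 1) * ((2 * N + 1) * (2 * N + 2)) := by ring
      _ ≤ N * (N + 1) * ((2 * N + 1) * (2 * N + 2)) := mul_le_mul_of_nonneg_right this h0
      _ = _ := by ring
  have h14 : T * ((N + 1) / (N * (N + 1) * (2 * N + 1) * (2 * N + 2))) ≤ N - 1 :=
    (mul_le_mul_of_nonneg_left h13 hT0).trans h12
  have h15 : T * ((N + 1) / (N * (N + 1) * (2 * N + 1) * (2 * N + 2))) =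
      4 * (N + 1) ^ 3 / (N * (2 * N + 1)) := by
    rw [hTr]
    field_simp
    ring
  rw [h15, div_le_iff₀ (by positivity)] at h14
  nlinarith [mul_nonneg hN0.le hN0.le, mul_nonneg (mul_nonneg hN0.le hN0.le) hN0.le]

/-- the logarithmic step -/
theorem log_step (N d T c : ℝ) (hN1 : 1 ≤ N) (hd1' : 1 ≤ d) (hT0 : 0 ≤ T) (hc0 : 0 ≤ c)
    (hlog : T * Real.log d + (c * Real.log (2 * N + 1) + (T - c) * Real.log (2 * N + 2)) ≤
      T * Real.log ((2 * N + 2) * d - 1) + Real.log N) :
    T * (1 / ((2 * N + 2) * d)) ≤ (N - 1) + c * (1 / (2 * N + 1)) := by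
  have hN0 : 0 < N := by linarith
  have hd0 : 0 < d := by linarith
  have hpos : 0 < (2 * N + 2) * d - 1 := by nlinarith
  have h1 : Real.log ((2 * N + 2) * d - 1) ≤
      Real.log (2 * N + 2) + Real.log d - 1 / ((2 * N + 2) * d) := by
    have h2 : (2 * N + 2) * d - 1 = ((2 * N + 2) * d) * (1 - 1 / ((2 * N + 2) * d)) := by
      field_simp
    have h3 : 0 < 1 - 1 / ((2 * N + 2) * d) := by
      rw [h2] at hpos
      exact (mul_pos_iff_of_pos_left (by positivity)).1 hpos
    rw [h2, Real.log_mul (by positivity) h3.ne', Real.log_mul (by positivity) (by positivity)]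
    have := Real.log_le_sub_one_of_pos h3
    linarith
  have h4 : Real.log (2 * N + 2) - 1 / (2 * N + 1) ≤ Real.log (2 * N + 1) := by
    have h5 : 2 * N + 2 = (2 * N + 1) * (1 + 1 / (2 * N + 1)) := by field_simp; ring
    rw [h5, Real.log_mul (by positivity) (by positivity)]
    have := Real.log_le_sub_one_of_pos (x := 1 + 1 / (2 * N + 1)) (by positivity)
    linarith
  have h6 : Real.log N ≤ N - 1 := Real.log_le_sub_one_of_pos (by linarith)
  have h7 : T * Real.log ((2 * N + 2) * d - 1) ≤
      T * (Real.log (2 * N + 2) + Real.log d - 1 / ((2 * N + 2) * d)) :=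
    mul_le_mul_of_nonneg_left h1 hT0
  have h8 : c * (Real.log (2 * N + 2) - 1 / (2 * N + 1)) ≤ c * Real.log (2 * N + 1) :=
    mul_le_mul_of_nonneg_left h4 hc0
  have e7 : T * (Real.log (2 * N + 2) + Real.log d - 1 / ((2 * N + 2) * d)) =
      T * Real.log (2 * N + 2) + T * Real.log d - T * (1 / ((2 * N + 2) * d)) := by ring
  have e8 : c * (Real.log (2 * N + 2) - 1 / (2 * N + 1)) =
      c * Real.log (2 * N + 2) - c * (1 / (2 * N + 1)) := by ring
  have e9 : (T - c) * Real.log (2 * N + 2) = T * Real.log (2 * N + 2) - c * Real.log (2 * N + 2) := by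
    ring
  rw [e7] at h7
  rw [e8] at h8
  rw [e9] at hlog
  linarith

theorem mwu : S_MWU := by
  intro n G pick hg D hD v
  by_contra hcon
  push Not at hcon
  have hn1 : 1 ≤ n := by
    have := v.2
    omega
  have hcT : cnt G pick (rounds n) v ≤ rounds n := cnt_le G pick _ v
  have hdn : D.card ≤ n := by simpa using D.card_le_univ
  have hd1 : 1 ≤ D.card := by
    rw [Nat.one_le_iff_ne_zero, Ne, Finset.card_eq_zero]
    intro h
    subst h
    obtain ⟨w, hw, _⟩ := hD v (by simp)
    simp at hw
  have hb := pot_bound G pick (rounds n) hg D hD (rounds n) le_rfl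
  have hw : wt G pick (rounds n) v ≤ pot G pick (rounds n) :=
    Finset.single_le_sum (f := fun v => wt G pick (rounds n) v) (fun _ _ => Nat.zero_le _)
      (Finset.mem_univ v)
  have hw' : ((2 * (n : ℝ) + 1)) ^ (cnt G pick (rounds n) v) *
      (2 * n + 2) ^ (rounds n - cnt G pick (rounds n) v) ≤ pot G pick (rounds n) := by
    have : (wt G pick (rounds n) v : ℝ) ≤ pot G pick (rounds n) := by exact_mod_cast hw
    simpa [wt] using this
  have hTr : (rounds n : ℝ) = 8 * ((n : ℝ) + 1) ^ 4 := by
    simp [rounds]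
  have hcr : ((D.card : ℝ) + 1) * (cnt G pick (rounds n) v : ℝ) ≤ rounds n := by
    exact_mod_cast hcon
  have hN1 : (1 : ℝ) ≤ n := by exact_mod_cast hn1
  have hd1' : (1 : ℝ) ≤ D.card := by exact_mod_cast hd1
  have hdN : (D.card : ℝ) ≤ n := by exact_mod_cast hdn
  generalize hT : rounds n = T at *
  generalize hc : cnt G pick T v = c at *
  generalize hd : (D.card : ℝ) = d at *
  generalize hN : (n : ℝ) = N at *
  generalize (pot G pick T : ℝ) = P at *
  have hN0 : 0 < N := by linarith
  have hd0 : 0 < d := by linarith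
  have hpos : 0 < (2 * N + 2) * d - 1 := by nlinarith
  have hmain : d ^ T * ((2 * N + 1) ^ c * (2 * N + 2) ^ (T - c)) ≤ ((2 * N + 2) * d - 1) ^ T * N :=
    (mul_le_mul_of_nonneg_left hw' (by positivity)).trans hb
  have hlog := Real.log_le_log (by positivity) hmain
  rw [Real.log_mul (by positivity) (by positivity), Real.log_mul (by positivity) (by positivity),
    Real.log_mul (by positivity) (by positivity), Real.log_pow, Real.log_pow, Real.log_pow,
    Real.log_pow, Nat.cast_sub hcT] at hlog
  exact final_ineq N d T c hN1 hd1' hdN hTr hcr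
    (log_step N d T c hN1 hd1' (Nat.cast_nonneg _) (Nat.cast_nonneg _) hlog)

end Pool.Agent.P8H71.DS.MWU
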