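import Pool.Agent.P8H83.DS.Stm
import Pool.Agent.P8H71.DS.Mwu

/-!
# DS/COR: the list algorithm is the greedy algorithm
-/

set_option autoImplicit false

namespace Pool.Agent.P8H71.DS.COR

open Pool.Agent.NPC Pool.Agent.NPC.R671 Pool.Agent.Y600.DC Pool.Agent.P8H83.DS
open Pool.Agent.P8H71.DS.MWU

theorem foldl_best (f : ℕ → ℕ) (l : List ℕ) : ∀ b0 : ℕ,
    let r := l.foldl (fun b u => if f b < f u then u else b) b0
    f b0 ≤ f r ∧ (∀ u ∈ l, f u ≤ f r) ∧ (r = b0 ∨ r ∈ l) := by
  induction l with
  | nil => intro b0; simp
  | cons a l ih =>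
    intro b0
    obtain ⟨h1, h2, h3⟩ := ih (if f b0 < f a then a else b0)
    simp only [List.foldl_cons]
    refine ⟨?_, ?_, ?_⟩
    · refine le_trans ?_ h1
      split_ifs with h
      · exact h.le
      · exact le_rfl
    · intro u hu
      rcases List.mem_cons.1 hu with hu | hu
      · subst hu
        refine le_trans ?_ h1
        split_ifs with h
        · exact le_rfl
        · exact not_lt.1 h
      · exact h2 u hu
    · rcases h3 with h3 | h3
      · split_ifs at h3 ⊢ with h
        · right
          rw [h3]
          exact List.mem_cons_self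
        · left
          exact h3
      · right
        exact List.mem_cons_of_mem _ h3

theorem sum_range (n : ℕ) (f : ℕ → ℕ) :
    ((List.range n).map f).sum = ∑ i : Fin n, f i := by
  rw [← Finset.sum_range]
  induction n with
  | zero => simp
  | succ n ih => rw [List.range_succ, List.map_append, List.sum_append, Finset.sum_range_succ, ih]; simp

variable {n : ℕ} (G : SimpleGraph (Fin n))

theorem adjMatrix_length : (adjMatrix G).length = n := by
  simp [adjMatrix]

theorem cl_iff (u v : Fin n) : cl (adjMatrix G) u v = true ↔ Close G u v := by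
  classical
  unfold cl Close
  rw [Bool.or_eq_true, decide_eq_true_iff, Fin.val_inj]
  have : ((adjMatrix G).getD (u : ℕ) []).getD (v : ℕ) false = decide (G.Adj u v) := by
    simp [adjMatrix, List.getD_eq_getElem?_getD]
  rw [this, decide_eq_true_iff]

theorem run_succ (M : List (List Bool)) (t : ℕ) : run M (t + 1) = step M (run M t) := by
  unfold run
  rw [Function.iterate_succ_apply']

theorem run_length (M : List (List Bool)) (t : ℕ) : (run M t).length = M.length := by
  cases t with
  | zero => simp [run]
  | succ t => rw [run_succ]; simp [step]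

theorem best_lt (M : List (List Bool)) (s : List (ℕ × ℕ)) (h : 0 < M.length) :
    best M s < M.length := by
  obtain ⟨_, _, h3⟩ := foldl_best (ld M s) (List.range M.length) 0
  unfold best
  rcases h3 with h3 | h3
  · rw [h3]; exact h
  · exact List.mem_range.1 h3

theorem best_max (M : List (List Bool)) (s : List (ℕ × ℕ)) (u : ℕ) (hu : u < M.length) :
    ld M s u ≤ ld M s (best M s) := by
  obtain ⟨_, h2, _⟩ := foldl_best (ld M s) (List.range M.length) 0
  exact h2 u (List.mem_range.2 hu)

/-- the choices of the algorithm -/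
noncomputable def pk (hn : 0 < n) (t : ℕ) : Fin n :=
  ⟨best (adjMatrix G) (run (adjMatrix G) t), by
    have := best_lt (adjMatrix G) (run (adjMatrix G) t) (by rw [adjMatrix_length]; exact hn)
    rwa [adjMatrix_length] at this⟩

theorem run_getD (hn : 0 < n) (t : ℕ) : ∀ v : Fin n,
    (run (adjMatrix G) t).getD (v : ℕ) (0, 0) = (wt G (pk G hn) t v, cnt G (pk G hn) t v) := by
  induction t with
  | zero =>
    intro v
    rw [wt_zero, cnt_zero]
    simp [run, List.getD_eq_getElem?_getD, adjMatrix_length]
  | succ t ih =>
    intro v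
    have h1 : (run (adjMatrix G) (t + 1)).getD (v : ℕ) (0, 0) =
        if cl (adjMatrix G) v (best (adjMatrix G) (run (adjMatrix G) t)) then
          ((2 * n + 1) * ((run (adjMatrix G) t).getD v (0, 0)).1,
            ((run (adjMatrix G) t).getD v (0, 0)).2 + 1)
        else ((2 * n + 2) * ((run (adjMatrix G) t).getD v (0, 0)).1,
          ((run (adjMatrix G) t).getD v (0, 0)).2) := by
      rw [run_succ, step, adjMatrix_length]
      rw [List.getD_eq_getElem _ _ (by simp), List.getElem_map, List.getElem_range]
    have h2 : cl (adjMatrix G) v (best (adjMatrix G) (run (adjMatrix G) t)) = true ↔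
        Close G v (pk G hn t) := cl_iff G v (pk G hn t)
    rw [h1, ih v]
    by_cases h : Close G v (pk G hn t)
    · rw [if_pos (h2.2 h), wt_succ_pos _ _ _ _ h, cnt_succ_pos _ _ _ _ h]
    · rw [if_neg (fun hh => h (h2.1 hh)), wt_succ_neg _ _ _ _ h, cnt_succ_neg _ _ _ _ h]

theorem ld_eq (hn : 0 < n) (t : ℕ) (u : Fin n) :
    ld (adjMatrix G) (run (adjMatrix G) t) u = load G (pk G hn) t u := by
  classical
  unfold ld
  rw [adjMatrix_length, sum_range, load_eq, Finset.sum_filter]
  refine Finset.sum_congr rfl fun v _ => ?_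
  rw [run_getD G hn t v]
  by_cases h : Close G v u
  · rw [if_pos ((cl_iff G v u).2 h), if_pos h]
  · rw [if_neg (fun hh => h ((cl_iff G v u).1 hh)), if_neg h]

theorem greedy (hn : 0 < n) (T : ℕ) : Greedy G (pk G hn) T := by
  intro t _ u
  rw [← ld_eq G hn t u, ← ld_eq G hn t (pk G hn t)]
  exact best_max _ _ u (by rw [adjMatrix_length]; exact u.2)

theorem cor : S_COR := by
  intro n G k hn
  refine ⟨pk G hn, greedy G hn _, ?_⟩
  unfold alg
  simp only [adjMatrix_length]
  rw [List.all_eq_true]
  constructor
  · intro h v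
    have hv : (v : ℕ) < (run (adjMatrix G) (rounds n)).length := by
      rw [run_length, adjMatrix_length]; exact v.2
    have h1 := h _ (List.getElem_mem hv)
    rw [← List.getD_eq_getElem _ (0, 0) hv, run_getD G hn] at h1
    simpa using h1
  · intro h x hx
    obtain ⟨i, hi, rfl⟩ := List.getElem_of_mem hx
    have hi' : i < n := by rwa [run_length, adjMatrix_length] at hi
    have h1 := h ⟨i, hi'⟩
    have h2 := run_getD G hn (rounds n) ⟨i, hi'⟩
    rw [← List.getD_eq_getElem _ (0, 0) hi]
    rw [show (run (adjMatrix G) (rounds n)).getD i (0, 0) = _ from h2]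
    simpa using h1

end Pool.Agent.P8H71.DS.COR
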